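import Pool.Agent.H64.FB.Targets

/-!
# F-COV: acyclicity lifts to the universal cover
-/

open Topology Set
open Pool.Agent.H59 Pool.Agent.H64.LB Pool.Agent.H93.FB Pool.Agent.H64.FB
open scoped unitInterval ContinuousMap Topology.Homotopy

namespace Pool.Agent.H56.FB.COV

variable {Y : Type} [TopologicalSpace Y] {y₀ : Y}

theorem leg_act_act {T : Type} [TopologicalSpace T] (g g' : PQ y₀ y₀) (s : Leg y₀ T) :
    Leg.act g (Leg.act g' s) = Leg.act (g.trans g') s :=
  Leg.ext' fun t => BT.act_act g g' (s.toFun t)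

theorem leg_one_act {T : Type} [TopologicalSpace T] (s : Leg y₀ T) :
    Leg.act (Path.Homotopic.Quotient.refl y₀) s = s :=
  Leg.ext' fun t => BT.one_act (s.toFun t)

theorem actC_actC (g g' : PQ y₀ y₀) (n : ℕ) (x : CC y₀ n) :
    actC g n (actC g' n x) = actC (g.trans g') n x := by
  induction x using Finsupp.induction_linear with
  | zero => simp
  | add f g hf hg => rw [map_add, map_add, map_add, hf, hg]
  | single a r => rw [actC_single, actC_single, actC_single, leg_act_act]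

theorem actC_refl (n : ℕ) (x : CC y₀ n) :
    actC (Path.Homotopic.Quotient.refl y₀) n x = x := by
  induction x using Finsupp.induction_linear with
  | zero => simp
  | add f g hf hg => rw [map_add, hf, hg]
  | single a r => rw [actC_single, leg_one_act]

/-- operators which are `n` on homology -/
structure Good (n : ℕ) (N : ∀ m, CC y₀ m →ₗ[ℚ] CC y₀ m) : Prop where
  comm : ∀ m (x : CC y₀ (m + 1)), cbd y₀ m (N (m + 1) x) = N m (cbd y₀ m x)
  act : ∀ (g : PQ y₀ y₀) m (x : CC y₀ m), N m (actC g m x) = actC g m (N m x)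
  cyc : ∀ m (z : CC y₀ (m + 1)), cbd y₀ m z = 0 →
    ∃ w, N (m + 1) z = (n : ℚ) • z + cbd y₀ (m + 1) w

theorem Good.comp {n n' : ℕ} {N N' : ∀ m, CC y₀ m →ₗ[ℚ] CC y₀ m} (h : Good n N)
    (h' : Good n' N') : Good (n * n') fun m => N m ∘ₗ N' m where
  comm m x := by
    rw [LinearMap.comp_apply, LinearMap.comp_apply, h.comm, h'.comm]
  act g m x := by
    rw [LinearMap.comp_apply, LinearMap.comp_apply, h'.act, h.act]
  cyc m z hz := by
    obtain ⟨w', hw'⟩ := h'.cyc m z hz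
    obtain ⟨w, hw⟩ := h.cyc m z hz
    refine ⟨(n' : ℚ) • w + N (m + 1 + 1) w', ?_⟩
    rw [LinearMap.comp_apply, hw', map_add, map_smul, hw, ← h.comm, map_add, map_smul,
      smul_add, smul_smul, Nat.cast_mul, mul_comm (n' : ℚ)]
    abel

/-- powers of a loop class -/
noncomputable def gp (g : PQ y₀ y₀) : ℕ → PQ y₀ y₀
  | 0 => Path.Homotopic.Quotient.refl y₀
  | a + 1 => (gp g a).trans g

/-- the norm operator -/
noncomputable def Nm (g : PQ y₀ y₀) (k m : ℕ) : CC y₀ m →ₗ[ℚ] CC y₀ m :=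
  ∑ a ∈ Finset.range k, actC (gp g a) m

theorem Nm_apply (g : PQ y₀ y₀) (k m : ℕ) (x : CC y₀ m) :
    Nm g k m x = ∑ a ∈ Finset.range k, actC (gp g a) m x := by
  simp [Nm, LinearMap.sum_apply]

theorem act_cycle (hCVP : T_CVP) (hc : HC Y y₀) (g : PQ y₀ y₀) (m : ℕ) (z : CC y₀ (m + 1))
    (hz : cbd y₀ m z = 0) : ∃ w, actC g (m + 1) z = z + cbd y₀ (m + 1) w := by
  induction g using Path.Homotopic.Quotient.ind with
  | mk l =>
  obtain ⟨h, h0, h1, ht⟩ := hc l
  obtain ⟨P, -, hP⟩ := hCVP Y y₀ h h0 h1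
  refine ⟨P (m + 1) z, ?_⟩
  rw [hP, hz, map_zero, sub_zero, Path.Homotopic.Quotient.eq.2 ht]
  abel

theorem good_Nm (hCVP : T_CVP) (hc : HC Y y₀)
    (hcomm : ∀ g h : PQ y₀ y₀, g.trans h = h.trans g) (g : PQ y₀ y₀) (k : ℕ) :
    Good k (Nm g k) where
  comm m x := by
    rw [Nm_apply, Nm_apply, map_sum]
    exact Finset.sum_congr rfl fun a _ => cbd_actC _ _ _
  act g' m x := by
    rw [Nm_apply, Nm_apply, map_sum]
    refine Finset.sum_congr rfl fun a _ => ?_
    rw [actC_actC, actC_actC, hcomm]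
  cyc m z hz := by
    choose w hw using fun a => act_cycle hCVP hc (gp g a) m z hz
    refine ⟨∑ a ∈ Finset.range k, w a, ?_⟩
    rw [Nm_apply, map_sum, Finset.sum_congr rfl fun a _ => hw a, Finset.sum_add_distrib]
    congr 1
    rw [Finset.sum_const, Finset.card_range, Nat.cast_smul_eq_nsmul]

theorem Nm_kill (g : PQ y₀ y₀) (k m : ℕ) (hk : gp g k = Path.Homotopic.Quotient.refl y₀)
    (x : CC y₀ m) : Nm g k m (actC g m x - x) = 0 := by
  rw [map_sub, Nm_apply, Nm_apply]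
  have h1 : ∀ a ∈ Finset.range k, actC (gp g a) m (actC g m x) = actC (gp g (a + 1)) m x := by
    intro a _
    rw [actC_actC]
    rfl
  rw [Finset.sum_congr rfl h1, ← Finset.sum_sub_distrib,
    Finset.sum_range_sub (fun a => actC (gp g a) m x), hk]
  change actC (Path.Homotopic.Quotient.refl y₀) m x -
    actC (Path.Homotopic.Quotient.refl y₀) m x = 0
  rw [sub_self]

/-- a loop class as an element of the fundamental group -/
def toG {Y : Type} [TopologicalSpace Y] {y₀ : Y} (p : PQ y₀ y₀) : FundamentalGroup Y y₀ := p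

theorem gp_eq (g : PQ y₀ y₀) (a : ℕ) : toG (gp g a) = toG g ^ a := by
  induction a with
  | zero => rfl
  | succ a ih =>
    rw [pow_succ', ← ih]
    rfl

/-- an operator which kills finitely many differences -/
theorem exists_good (hCVP : T_CVP) (hc : HC Y y₀)
    (hcomm : ∀ g h : PQ y₀ y₀, g.trans h = h.trans g)
    (htor : ∀ g : PQ y₀ y₀, ∃ k, 1 ≤ k ∧ gp g k = Path.Homotopic.Quotient.refl y₀) (m : ℕ) :
    ∀ (r : ℕ) (g : Fin r → PQ y₀ y₀) (e : Fin r → CC y₀ m),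
    ∃ (n : ℕ) (N : ∀ m, CC y₀ m →ₗ[ℚ] CC y₀ m), 1 ≤ n ∧ Good n N ∧
      N m (∑ i, (actC (g i) m (e i) - e i)) = 0 := by
  intro r
  induction r with
  | zero =>
    intro g e
    refine ⟨1, fun m => LinearMap.id, le_rfl, ⟨fun m x => rfl, fun g m x => rfl,
      fun m z _ => ⟨0, by simp⟩⟩, by simp⟩
  | succ r ih =>
    intro g e
    obtain ⟨n, N, hn, hN, hN0⟩ := ih (fun i => g i.castSucc) (fun i => e i.castSucc)
    obtain ⟨k, hk1, hk⟩ := htor (g (Fin.last r))
    refine ⟨n * k, fun m => N m ∘ₗ Nm (g (Fin.last r)) k m, Nat.mul_pos hn hk1,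
      hN.comp (good_Nm hCVP hc hcomm _ k), ?_⟩
    rw [Fin.sum_univ_castSucc, map_add, LinearMap.comp_apply, LinearMap.comp_apply,
      Nm_kill _ k m hk, map_zero, add_zero]
    have h1 : ∀ x, N m (Nm (g (Fin.last r)) k m x) = Nm (g (Fin.last r)) k m (N m x) := by
      intro x
      rw [Nm_apply, Nm_apply, map_sum]
      exact Finset.sum_congr rfl fun a _ => hN.act _ _ _
    rw [h1, hN0, map_zero]

theorem cov (hHU1 : T_HU1) (hCEN : T_CEN) (hCVK : T_CVK) (hCVS : T_CVS) (hCVP : T_CVP) :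
    T_COV := by
  intro Y _ _ y₀ hc ha q z hz
  have hcomm : ∀ g h : PQ y₀ y₀, g.trans h = h.trans g := by
    intro g h
    exact hCEN Y y₀ hc h g
  have htor : ∀ g : PQ y₀ y₀, ∃ k, 1 ≤ k ∧ gp g k = Path.Homotopic.Quotient.refl y₀ := by
    intro g
    obtain ⟨n, hn, h⟩ := hHU1 Y y₀ (hCEN Y y₀ hc) (ha 1) (toG g)
    refine ⟨n, hn, ?_⟩
    have h2 := gp_eq g n
    rw [h] at h2
    exact h2
  obtain ⟨y, hy⟩ := ha q (fgC y₀ (q + 1) z) (by rw [bd_fgC, hz, map_zero])
  obtain ⟨yt, rfl⟩ := hCVS Y y₀ (q + 1) y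
  rw [bd_fgC] at hy
  obtain ⟨r, g, e, hx⟩ := hCVK Y y₀ q (cbd y₀ (q + 1) yt - z) (by rw [map_sub, hy, sub_self])
  obtain ⟨n, N, hn, hN, hN0⟩ := exists_good hCVP hc hcomm htor (q + 1) r g e
  rw [← hx, map_sub, sub_eq_zero, ← hN.comm] at hN0
  obtain ⟨w, hw⟩ := hN.cyc q z hz
  refine ⟨(n : ℚ)⁻¹ • (N (q + 1 + 1) yt - w), ?_⟩
  have hn0 : (n : ℚ) ≠ 0 := by
    have : n ≠ 0 := by omega
    exact_mod_cast this
  rw [map_smul, map_sub, hN0, hw, add_sub_cancel_right, smul_smul, inv_mul_cancel₀ hn0, one_smul]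

end Pool.Agent.H56.FB.COV
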