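import Pool.Agent.H64.FB.Targets

/-!
# F-CUR: the homotopy groups of the space of null-homotopic loops
-/

open Topology Set
open Pool.Agent.H59 Pool.Agent.H64.LB Pool.Agent.H93.FB Pool.Agent.H64.FB Pool.Agent.H93.SPB
open scoped unitInterval ContinuousMap Topology.Homotopy

namespace Pool.Agent.H56.FB.CUR

noncomputable section

variable {Y : Type} [TopologicalSpace Y] {y₀ : Y} {k : ℕ}

/-- the first coordinates -/
def ini (k : ℕ) : C(Fin (k + 1 + 1) → I, Fin (k + 1) → I) :=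
  ⟨fun y => Fin.init y, continuous_pi fun i => continuous_apply i.castSucc⟩

/-- evaluation of the path at the last coordinate, continuous version -/
def gmC (P : C(Fin (k + 1) → I, NLF Y y₀)) : C(Fin (k + 1 + 1) → I, Y) :=
  (EE.ev (cpt y₀)).comp (((F0.inc (cpt y₀) PUnit.unit).comp (P.comp (ini k))).prodMk
    ⟨fun y => y (Fin.last (k + 1)), continuous_apply _⟩)

theorem gmC_apply (P : C(Fin (k + 1) → I, NLF Y y₀)) (y : Fin (k + 1 + 1) → I) :
    gmC P y = (P (Fin.init y)).1.1.2 (y (Fin.last (k + 1))) := rfl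

theorem base_path (t : I) : (NLF.base y₀).1.1.2 t = y₀ := rfl

theorem path_zero (e : NLF Y y₀) : e.1.1.2 0 = y₀ := e.1.2

theorem path_one (e : NLF Y y₀) : e.1.1.2 1 = y₀ := F0.endp_eq (cpt y₀) PUnit.unit e

/-- the loop in one dimension more -/
def Gm (P : GenLoop (Fin (k + 1)) (NLF Y y₀) (NLF.base y₀)) : GenLoop (Fin (k + 1 + 1)) Y y₀ :=
  ⟨gmC P.1, by
    rintro y ⟨i, hi⟩
    rw [gmC_apply]
    induction i using Fin.lastCases with
    | last =>
      rcases hi with hi | hi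
      · rw [hi]; exact path_zero _
      · rw [hi]; exact path_one _
    | cast j =>
      have h1 : P.1 (Fin.init y) = NLF.base y₀ := P.2 _ ⟨j, hi⟩
      rw [h1]
      exact base_path _⟩

theorem Gm_apply (P : GenLoop (Fin (k + 1)) (NLF Y y₀) (NLF.base y₀)) (y : Fin (k + 1 + 1) → I) :
    Gm P y = (P (Fin.init y)).1.1.2 (y (Fin.last (k + 1))) := rfl

theorem Gm_homotopic {P P' : GenLoop (Fin (k + 1)) (NLF Y y₀) (NLF.base y₀)}
    (h : GenLoop.Homotopic P P') : GenLoop.Homotopic (Gm P) (Gm P') := by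
  obtain ⟨H⟩ := h
  refine ⟨{
    toFun := fun q => (H (q.1, Fin.init q.2)).1.1.2 (q.2 (Fin.last (k + 1)))
    continuous_toFun := ?_
    map_zero_left := ?_
    map_one_left := ?_
    prop' := ?_ }⟩
  · have h1 : Continuous fun q : I × (Fin (k + 1 + 1) → I) => (q.1, ini k q.2) := by fun_prop
    have h2 := (F0.inc (cpt y₀) PUnit.unit).continuous.comp (H.continuous.comp h1)
    have h3 : Continuous fun q : I × (Fin (k + 1 + 1) → I) => q.2 (Fin.last (k + 1)) := by fun_prop
    exact (EE.ev (cpt y₀)).continuous.comp (h2.prodMk h3)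
  · intro y
    change (H (0, Fin.init y)).1.1.2 _ = _
    rw [H.apply_zero]
    rfl
  · intro y
    change (H (1, Fin.init y)).1.1.2 _ = _
    rw [H.apply_one]
    rfl
  · rintro t y ⟨i, hi⟩
    have hb : (Gm P).1 y = y₀ := (Gm P).2 y ⟨i, hi⟩
    refine Eq.trans ?_ hb.symm
    change (H (t, Fin.init y)).1.1.2 (y (Fin.last (k + 1))) = y₀
    induction i using Fin.lastCases with
    | last =>
      rcases hi with hi | hi
      · rw [hi]; exact path_zero _
      · rw [hi]; exact path_one _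
    | cast j =>
      have h1 : H (t, Fin.init y) = P.1 (Fin.init y) := H.eq_fst t ⟨j, hi⟩
      have h2 : P.1 (Fin.init y) = NLF.base y₀ := P.2 _ ⟨j, hi⟩
      rw [h1, h2]
      exact base_path _

theorem init_update (y : Fin (k + 1 + 1) → I) (v : I) :
    Fin.init (Function.update y 0 v) = Function.update (Fin.init y : Fin (k + 1) → I) 0 v := by
  funext i
  by_cases h : i = 0
  · subst h
    simp [Fin.init]
  · have h1 : i.castSucc ≠ 0 := by
      intro h2
      apply h
      apply Fin.castSucc_injective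
      rw [h2]
      rfl
    rw [Function.update_of_ne h]
    change Function.update y 0 v i.castSucc = y i.castSucc
    rw [Function.update_of_ne h1]

theorem Gm_transAt (P Q : GenLoop (Fin (k + 1)) (NLF Y y₀) (NLF.base y₀)) :
    Gm (GenLoop.transAt 0 P Q) = GenLoop.transAt 0 (Gm P) (Gm Q) := by
  apply GenLoop.ext
  intro y
  rw [Gm_apply]
  simp only [GenLoop.transAt, GenLoop.coe_copy]
  have h0 : (Fin.init y : Fin (k + 1) → I) 0 = y 0 := rfl
  have hlast : (Fin.last (k + 1)) ≠ 0 := Fin.last_pos.ne'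
  rw [h0]
  split_ifs with h
  · rw [Gm_apply, init_update, Function.update_of_ne hlast]
  · rw [Gm_apply, init_update, Function.update_of_ne hlast]

/-- the map of homotopy groups -/
def FF (Y : Type) [TopologicalSpace Y] (y₀ : Y) (k : ℕ) :
    HomotopyGroup.Pi (k + 1) (NLF Y y₀) (NLF.base y₀) → HomotopyGroup.Pi (k + 1 + 1) Y y₀ :=
  Quotient.map Gm (fun _ _ h => Gm_homotopic h)

theorem FF_mk (P : GenLoop (Fin (k + 1)) (NLF Y y₀) (NLF.base y₀)) :
    FF Y y₀ k (hcl P) = hcl (Gm P) := rfl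

theorem FF_mul (a b : HomotopyGroup.Pi (k + 1) (NLF Y y₀) (NLF.base y₀)) :
    FF Y y₀ k (a * b) = FF Y y₀ k a * FF Y y₀ k b := by
  obtain ⟨p, rfl⟩ : ∃ p, hcl p = a := Quotient.exists_rep a
  obtain ⟨q, rfl⟩ : ∃ q, hcl q = b := Quotient.exists_rep b
  have h1 : hcl p * hcl q = hcl (GenLoop.transAt 0 q p) := HomotopyGroup.mul_spec
  have h2 : hcl (Gm p) * hcl (Gm q) = hcl (GenLoop.transAt 0 (Gm q) (Gm p)) :=
    HomotopyGroup.mul_spec
  rw [h1, FF_mk, FF_mk, FF_mk, h2, Gm_transAt]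

/-- the map of homotopy groups, bundled -/
def FH (Y : Type) [TopologicalSpace Y] (y₀ : Y) (k : ℕ) :
    HomotopyGroup.Pi (k + 1) (NLF Y y₀) (NLF.base y₀) →* HomotopyGroup.Pi (k + 1 + 1) Y y₀ :=
  MonoidHom.mk' (FF Y y₀ k) FF_mul

/-- the family of paths of a loop -/
def famP (p : GenLoop (Fin (k + 1 + 1)) Y y₀) : C(Fin (k + 1) → I, EE (cpt y₀)) :=
  EE.fam (f := cpt y₀) (ContinuousMap.const _ PUnit.unit)
    (p.1.comp ⟨fun x : (Fin (k + 1) → I) × I => (Fin.snoc (α := fun _ => I) x.1 x.2), by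
      refine continuous_pi fun i => ?_
      induction i using Fin.lastCases with
      | last => simpa using continuous_snd
      | cast j =>
        simp only [Fin.snoc_castSucc]
        exact (continuous_apply j).comp continuous_fst⟩)
    (by
      intro x
      exact p.2 _ ⟨Fin.last (k + 1), Or.inl (by simp)⟩)

theorem famP_pth (p : GenLoop (Fin (k + 1 + 1)) Y y₀) (x : Fin (k + 1) → I) (t : I) :
    (famP p x).1.2 t = p (Fin.snoc (α := fun _ => I) x t) := rfl

theorem famP_bd (p : GenLoop (Fin (k + 1 + 1)) Y y₀) (x : Fin (k + 1) → I)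
    (hx : x ∈ Cube.boundary (Fin (k + 1))) : famP p x = starE (cpt y₀) PUnit.unit := by
  obtain ⟨i, hi⟩ := hx
  refine EE.ext' rfl fun t => ?_
  rw [famP_pth]
  exact p.2 _ ⟨i.castSucc, by simpa using hi⟩

theorem FH_surjective (hSTF : T_STF) : Function.Surjective (FH Y y₀ k) := by
  intro b
  obtain ⟨p, rfl⟩ : ∃ p, hcl p = b := Quotient.exists_rep b
  have h1 : ∀ x, EE.endp (cpt y₀) (famP p x) = (cpt y₀ : C(PUnit.{1}, Y)) PUnit.unit := by
    intro x
    change p.1 (Fin.snoc (α := fun _ => I) x 1) = y₀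
    exact p.2 _ ⟨Fin.last (k + 1), Or.inr (by simp)⟩
  have h2 : ∀ x, clf (cpt y₀) PUnit.unit (famP p x) =
      BT.one ((cpt y₀ : C(PUnit.{1}, Y)) PUnit.unit) := by
    refine hSTF PUnit Y (cpt y₀) PUnit.unit (Fin (k + 1) → I) (famP p) 0 h1 ?_
    rw [famP_bd p 0 ⟨0, Or.inl rfl⟩]
    exact clf_starE _ _
  let P : GenLoop (Fin (k + 1)) (NLF Y y₀) (NLF.base y₀) :=
    ⟨⟨fun x => ⟨famP p x, h2 x⟩, (famP p).continuous.subtype_mk _⟩, by
      intro x hx
      exact Subtype.ext (famP_bd p x hx)⟩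
  refine ⟨hcl P, ?_⟩
  change hcl (Gm P) = hcl p
  congr 1
  apply GenLoop.ext
  intro y
  rw [Gm_apply]
  change p (Fin.snoc (α := fun _ => I) (Fin.init y) (y (Fin.last (k + 1)))) = p y
  rw [Fin.snoc_init_self]

theorem cur (hSTF : T_STF) : T_CURF := by
  intro Y _ y₀ k ht g
  obtain ⟨G, rfl⟩ := FH_surjective hSTF g
  obtain ⟨n, hn, h⟩ := ht G
  exact ⟨n, hn, by rw [← map_pow, h, map_one]⟩

end

end Pool.Agent.H56.FB.CUR
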