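import Pool.Agent.H64.FB.Targets

/-!
# F-FHC: every loop of the fibre is the track of a self-homotopy
-/

open Topology Set
open Pool.Agent.H59 Pool.Agent.H64.LB Pool.Agent.H93.FB Pool.Agent.H64.FB
open scoped unitInterval ContinuousMap Topology.Homotopy

namespace Pool.Agent.H56.FB.FHC

noncomputable section

/-- the retraction of `ℝ` to `I` -/
def pr : C(ℝ, I) := ⟨projIcc 0 1 zero_le_one, continuous_projIcc⟩

theorem pr_coe (t : I) : pr (t : ℝ) = t := projIcc_val zero_le_one t

theorem pr_of_le {x : ℝ} (h : x ≤ 0) : pr x = 0 := projIcc_of_le_left zero_le_one h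

theorem pr_of_ge {x : ℝ} (h : 1 ≤ x) : pr x = 1 := projIcc_of_right_le zero_le_one h

/-- the time change -/
def tau : C(I, I) := ⟨fun t => pr (3 * (t : ℝ) - 1), by fun_prop⟩

/-- the length -/
def lam (t : I) : ℝ := max 0 (min 1 (min (3 * (t : ℝ)) (3 - 3 * t)))

theorem lam_cont : Continuous lam := by
  unfold lam
  fun_prop

theorem tau_zero : tau 0 = 0 := pr_of_le (by norm_num)

theorem tau_one : tau 1 = 1 := pr_of_ge (by norm_num)

theorem lam_zero : lam 0 = 0 := by
  simp [lam]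

theorem lam_one : lam 1 = 0 := by
  simp [lam]

theorem lam_nonneg (t : I) : 0 ≤ lam t := le_max_left _ _

theorem lam_tau (t : I) : lam t = 1 ∨ tau t = 0 ∨ tau t = 1 := by
  by_cases h1 : 3 * (t : ℝ) ≤ 1
  · right; left
    exact pr_of_le (by linarith)
  by_cases h2 : 2 ≤ 3 * (t : ℝ)
  · right; right
    exact pr_of_ge (by linarith)
  left
  push Not at h1 h2
  have h3 : min (3 * (t : ℝ)) (3 - 3 * t) ≥ 1 := le_min h1.le (by linarith)
  rw [lam, min_eq_left h3]
  norm_num

variable {A B : Type} [TopologicalSpace A] [TopologicalSpace B] [SimplyConnectedSpace A]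
  (f : C(A, B)) (a₀ : A)

/-- the loop in `A` -/
def lA (l : Path (star f a₀) (star f a₀)) : Path a₀ a₀ :=
  l.map ((EE.pa f).continuous.comp (F0.inc f a₀).continuous)

theorem lA_apply (l : Path (star f a₀) (star f a₀)) (t : I) :
    lA f a₀ l t = EE.pa f (l t).1 := rfl

variable {f a₀}

section N
variable (l : Path (star f a₀) (star f a₀)) (K : Path.Homotopy (lA f a₀ l) (Path.refl a₀))

/-- the extended family of loops -/
def NN : C(I × ℝ, B) where
  toFun p := if p.2 ≤ 0 then f (K (pr (-p.2), p.1)) else EE.ev f ((l p.1).1, pr p.2)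
  continuous_toFun := by
    refine Continuous.if_le ?_ ?_ continuous_snd continuous_const ?_
    · exact f.continuous.comp (K.continuous.comp
        ((pr.continuous.comp continuous_snd.neg).prodMk continuous_fst))
    · have h1 : Continuous fun p : I × ℝ => (F0.inc f a₀) (l p.1) :=
        (F0.inc f a₀).continuous.comp (l.continuous.comp continuous_fst)
      exact (EE.ev f).continuous.comp (h1.prodMk (pr.continuous.comp continuous_snd))
    · rintro ⟨t, x⟩ hx
      simp only at hx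
      subst hx
      simp only
      rw [neg_zero, pr_of_le le_rfl, K.apply_zero]
      exact (l t).1.2.symm

theorem NN_neg (t : I) (x : ℝ) (hx : x ≤ 0) : NN l K (t, x) = f (K (pr (-x), t)) := if_pos hx

theorem NN_nonneg (t : I) (x : ℝ) (hx : 0 ≤ x) : NN l K (t, x) = (l t).1.1.2 (pr x) := by
  rcases eq_or_lt_of_le hx with h | h
  · subst h
    rw [NN_neg l K t 0 le_rfl, neg_zero, pr_of_le le_rfl, K.apply_zero]
    exact (l t).1.2.symm
  · exact if_neg (not_le.2 h)

theorem NN_low (t : I) (x : ℝ) (hx : x ≤ -1) : NN l K (t, x) = f a₀ := by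
  rw [NN_neg l K t x (by linarith), pr_of_ge (by linarith), K.apply_one]
  rfl

theorem NN_high (t : I) (x : ℝ) (hx : 1 ≤ x) : NN l K (t, x) = f a₀ := by
  rw [NN_nonneg l K t x (by linarith), pr_of_ge hx]
  exact F0.endp_eq f a₀ (l t)

theorem NN_zero (x : ℝ) : NN l K (0, x) = f a₀ := by
  rcases le_total x 0 with h | h
  · rw [NN_neg l K 0 x h, K.source]
  · rw [NN_nonneg l K 0 x h, l.source]
    rfl

theorem NN_one (x : ℝ) : NN l K (1, x) = f a₀ := by
  rcases le_total x 0 with h | h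
  · rw [NN_neg l K 1 x h, K.target]
  · rw [NN_nonneg l K 1 x h, l.target]
    rfl

/-- the extension of a point of the fibre by the family -/
def MM : C((F0 f a₀ × I) × ℝ, B) where
  toFun p := if p.2 ≤ 1 then EE.ev f (p.1.1.1, pr p.2) else NN l K (p.1.2, p.2 - 2)
  continuous_toFun := by
    refine Continuous.if_le ?_ ?_ continuous_snd continuous_const ?_
    · have h1 : Continuous fun p : (F0 f a₀ × I) × ℝ => (F0.inc f a₀) p.1.1 :=
        (F0.inc f a₀).continuous.comp (continuous_fst.comp continuous_fst)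
      exact (EE.ev f).continuous.comp (h1.prodMk (pr.continuous.comp continuous_snd))
    · fun_prop
    · rintro ⟨⟨e, t⟩, x⟩ hx
      simp only at hx
      subst hx
      simp only
      rw [NN_low l K t _ (by norm_num), pr_of_ge le_rfl]
      exact F0.endp_eq f a₀ e

theorem MM_le (e : F0 f a₀) (t : I) (x : ℝ) (hx : x ≤ 1) :
    MM l K ((e, t), x) = e.1.1.2 (pr x) := if_pos hx

theorem MM_ge (e : F0 f a₀) (t : I) (x : ℝ) (hx : 1 ≤ x) :
    MM l K ((e, t), x) = NN l K (t, x - 2) := by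
  rcases eq_or_lt_of_le hx with h | h
  · subst h
    rw [MM_le l K e t 1 le_rfl, NN_low l K t _ (by norm_num), pr_of_ge le_rfl]
    exact F0.endp_eq f a₀ e
  · exact if_neg (not_le.2 h)

/-- the self-homotopy, in the path fibration -/
def hE : C(F0 f a₀ × I, EE f) :=
  EE.fam (f := f) ((EE.pa f).comp ((F0.inc f a₀).comp ⟨Prod.fst, continuous_fst⟩))
    ((MM l K).comp ⟨fun p : (F0 f a₀ × I) × I => ((p.1.1, tau p.1.2), (1 + 2 * lam p.1.2) * p.2), by
      have := lam_cont
      fun_prop⟩)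
    (by
      rintro ⟨e, t⟩
      change MM l K ((e, tau t), (1 + 2 * lam t) * ((0 : I) : ℝ)) = f (EE.pa f e.1)
      rw [MM_le l K e _ _ (by simp), pr_of_le (by simp)]
      exact e.1.2)

theorem hE_pth (e : F0 f a₀) (t r : I) :
    (hE l K (e, t)).1.2 r = MM l K ((e, tau t), (1 + 2 * lam t) * r) := rfl

theorem NN_end (t : I) : NN l K (tau t, 2 * lam t - 1) = f a₀ := by
  rcases lam_tau t with h | h | h
  · exact NN_high l K _ _ (by rw [h]; norm_num)
  · rw [h]; exact NN_zero l K _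
  · rw [h]; exact NN_one l K _

theorem hE_endp (e : F0 f a₀) (t : I) : EE.endp f (hE l K (e, t)) = f a₀ := by
  change MM l K ((e, tau t), (1 + 2 * lam t) * ((1 : I) : ℝ)) = f a₀
  have h0 := lam_nonneg t
  rw [MM_ge l K e _ _ (by simp; linarith)]
  have : (1 + 2 * lam t) * ((1 : I) : ℝ) - 2 = 2 * lam t - 1 := by
    simp only [Icc.coe_one]
    ring
  rw [this]
  exact NN_end l K t

theorem hE_of_lam (e : F0 f a₀) (t : I) (ht : lam t = 0) : hE l K (e, t) = e.1 := by
  refine EE.ext' rfl fun r => ?_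
  rw [hE_pth, ht, MM_le l K e _ _ (by simpa using r.2.2)]
  congr 1
  simp only [mul_zero, add_zero, one_mul]
  exact pr_coe r

theorem hE_mem (hSTF : T_STF) (p : F0 f a₀ × I) : clf f a₀ (hE l K p) = BT.one (f a₀) := by
  obtain ⟨e, t⟩ := p
  refine hSTF A B f a₀ I ((hE l K).comp ⟨fun t => (e, t), by fun_prop⟩) 0
    (fun t => hE_endp l K e t) ?_ t
  change clf f a₀ (hE l K (e, 0)) = _
  rw [hE_of_lam l K e 0 lam_zero]
  exact e.2

/-- the self-homotopy -/
def hF (hSTF : T_STF) : C(F0 f a₀ × I, F0 f a₀) :=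
  ⟨fun p => ⟨hE l K p, hE_mem l K hSTF p⟩, (hE l K).continuous.subtype_mk _⟩

theorem hF_coe (hSTF : T_STF) (p : F0 f a₀ × I) : (hF l K hSTF p).1 = hE l K p := rfl

/-- the homotopy from the loop to the track -/
def Phi : C(I × I, EE f) :=
  EE.fam (f := f) ⟨fun p : I × I => K (pr (2 * (p.1 : ℝ)), tau p.2), by
      exact K.continuous.comp (by fun_prop)⟩
    ((NN l K).comp ⟨fun p : (I × I) × I => (tau p.1.2, -(2 * (p.1.1 : ℝ)) +
      ((1 - p.1.1) + p.1.1 * (2 * lam p.1.2 - 1) + 2 * p.1.1) * p.2), by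
      have := lam_cont
      fun_prop⟩)
    (by
      rintro ⟨s, t⟩
      change NN l K (tau t, -(2 * (s : ℝ)) + _ * ((0 : I) : ℝ)) = f (K (pr (2 * (s : ℝ)), tau t))
      have hs := s.2.1
      rw [Icc.coe_zero, mul_zero, add_zero, NN_neg l K _ _ (by linarith), neg_neg])

theorem Phi_pth (s t r : I) : (Phi l K (s, t)).1.2 r = NN l K (tau t, -(2 * (s : ℝ)) +
      ((1 - s) + s * (2 * lam t - 1) + 2 * s) * r) := rfl

theorem Phi_pa (s t : I) : EE.pa f (Phi l K (s, t)) = K (pr (2 * (s : ℝ)), tau t) := rfl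

theorem Phi_endp (s t : I) : EE.endp f (Phi l K (s, t)) = f a₀ := by
  change (Phi l K (s, t)).1.2 1 = f a₀
  rw [Phi_pth]
  have h1 : -(2 * (s : ℝ)) + ((1 - s) + s * (2 * lam t - 1) + 2 * s) * ((1 : I) : ℝ) =
      (1 - s) + s * (2 * lam t - 1) := by
    simp only [Icc.coe_one]
    ring
  rw [h1]
  rcases lam_tau t with h | h | h
  · apply NN_high
    rw [h]
    apply le_of_eq
    ring
  · rw [h]; exact NN_zero l K _
  · rw [h]; exact NN_one l K _

theorem Phi_zero (t : I) : Phi l K (0, t) = (l (tau t)).1 := by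
  refine EE.ext' ?_ fun r => ?_
  · rw [Phi_pa, pr_of_le (by simp), K.apply_zero]
    rfl
  · rw [Phi_pth]
    have h1 : -(2 * ((0 : I) : ℝ)) + ((1 - ((0 : I) : ℝ)) + ((0 : I) : ℝ) * (2 * lam t - 1) +
        2 * ((0 : I) : ℝ)) * r = r := by
      simp
    rw [h1, NN_nonneg l K _ _ r.2.1, pr_coe]

theorem Phi_one (t : I) : Phi l K (1, t) = hE l K (star f a₀, t) := by
  refine EE.ext' ?_ fun r => ?_
  · rw [Phi_pa, pr_of_ge (by simp), K.apply_one]
    rfl
  · rw [Phi_pth, hE_pth]
    have h1 : -(2 * ((1 : I) : ℝ)) + ((1 - ((1 : I) : ℝ)) + ((1 : I) : ℝ) * (2 * lam t - 1) +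
        2 * ((1 : I) : ℝ)) * r = (1 + 2 * lam t) * r - 2 := by
      simp only [Icc.coe_one]
      ring
    rw [h1]
    rcases le_total ((1 + 2 * lam t) * (r : ℝ)) 1 with h | h
    · rw [MM_le l K _ _ _ h, NN_low l K _ _ (by linarith)]
      rfl
    · rw [MM_ge l K _ _ _ h]

theorem Phi_left (s : I) : Phi l K (s, 0) = starE f a₀ := by
  refine EE.ext' ?_ fun r => ?_
  · rw [Phi_pa, tau_zero, K.source]
    rfl
  · rw [Phi_pth, tau_zero, NN_zero]
    rfl

theorem Phi_right (s : I) : Phi l K (s, 1) = starE f a₀ := by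
  refine EE.ext' ?_ fun r => ?_
  · rw [Phi_pa, tau_one, K.target]
    rfl
  · rw [Phi_pth, tau_one, NN_one]
    rfl

/-- the homotopy in the fibre -/
def PhiF (hSTF : T_STF) : C(I × I, F0 f a₀) :=
  ⟨fun p => ⟨Phi l K p, hSTF A B f a₀ (I × I) (Phi l K) (0, 0) (fun p => Phi_endp l K p.1 p.2)
    (by rw [Phi_left]; exact clf_starE f a₀) p⟩, (Phi l K).continuous.subtype_mk _⟩

end N

theorem fhc (hSTF : T_STF) : T_FHC := by
  intro A B _ _ _ f a₀ l
  obtain ⟨K⟩ : (lA f a₀ l).Homotopic (Path.refl a₀) := SimplyConnectedSpace.paths_homotopic _ _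
  have h0 : ∀ y, hF l K hSTF (y, 0) = y := fun y => Subtype.ext (hE_of_lam l K y 0 lam_zero)
  have h1 : ∀ y, hF l K hSTF (y, 1) = y := fun y => Subtype.ext (hE_of_lam l K y 1 lam_one)
  refine ⟨hF l K hSTF, h0, h1, ?_⟩
  have h2 : l.Homotopic (l.reparam tau tau.continuous tau_zero tau_one) :=
    ⟨Path.Homotopy.reparam l tau tau.continuous tau_zero tau_one⟩
  refine Path.Homotopic.symm (h2.trans ?_)
  refine ⟨{
    toFun := fun p => PhiF l K hSTF p
    continuous_toFun := (PhiF l K hSTF).continuous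
    map_zero_left := ?_
    map_one_left := ?_
    prop' := ?_ }⟩
  · intro t
    exact Subtype.ext (Phi_zero l K t)
  · intro t
    exact Subtype.ext (Phi_one l K t)
  · intro s t ht
    rcases ht with rfl | rfl
    · have e1 : PhiF l K hSTF (s, 0) = star f a₀ := Subtype.ext (Phi_left l K s)
      have e2 : (l.reparam tau tau.continuous tau_zero tau_one) 0 = star f a₀ := Path.source _
      exact e1.trans e2.symm
    · have e1 : PhiF l K hSTF (s, 1) = star f a₀ := Subtype.ext (Phi_right l K s)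
      have e2 : (l.reparam tau tau.continuous tau_zero tau_one) 1 = star f a₀ := Path.target _
      exact e1.trans e2.symm

end

end Pool.Agent.H56.FB.FHC
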